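import Pool.Agent.H503R3.FR.Stmts

set_option autoImplicit false

universe u

open MvPolynomial

namespace H503R3.FR.Coord54

open H503R3.FR

/-- halves of the exponents -/
noncomputable def hf (m : Fin 3 →₀ ℕ) : Fin 3 →₀ ℕ := m.mapRange (fun x => x / 2) (by simp)

lemma hf_apply (m : Fin 3 →₀ ℕ) (i : Fin 3) : hf m i = m i / 2 := by
  unfold hf
  rw [Finsupp.mapRange_apply]

open Classical in
/-- images of the monomials -/
noncomputable def gg (k : Type u) [Field k] (e : Fin 3 → ℕ) (m : Fin 3 →₀ ℕ) : D k :=
  if ∀ i, m i % 2 = e i then monomial (hf m) 1 else 0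

/-- the coordinate map -/
noncomputable def cc (k : Type u) [Field k] (e : Fin 3 → ℕ) : D k →ₗ[k] D k :=
  (MvPolynomial.basisMonomials (Fin 3) k).constr k (gg k e)

lemma cc_monomial (k : Type u) [Field k] (e : Fin 3 → ℕ) (m : Fin 3 →₀ ℕ) (a : k) :
    cc k e (monomial m a) = a • gg k e m := by
  have h1 : cc k e (monomial m 1) = gg k e m := by
    have h := (MvPolynomial.basisMonomials (Fin 3) k).constr_basis k (gg k e) m
    rw [MvPolynomial.coe_basisMonomials] at h
    exact h
  have h2 : (monomial m a : D k) = a • monomial m 1 := by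
    rw [MvPolynomial.smul_monomial, smul_eq_mul, mul_one]
  rw [h2, map_smul, h1]

lemma cc_sq (k : Type u) [Field k] (e : Fin 3 → ℕ) (i : Fin 3) (d : D k) :
    cc k e (X i ^ 2 * d) = X i * cc k e d := by
  induction d using MvPolynomial.induction_on' with
  | monomial m a =>
    have h1 : (X i ^ 2 * monomial m a : D k) = monomial (Finsupp.single i 2 + m) a := by
      rw [MvPolynomial.X_pow_eq_monomial, MvPolynomial.monomial_mul, one_mul]
    rw [h1, cc_monomial, cc_monomial]
    rw [mul_smul_comm]
    congr 1
    unfold gg
    have h2 : (∀ j, (Finsupp.single i 2 + m : Fin 3 →₀ ℕ) j % 2 = e j) ↔ ∀ j, m j % 2 = e j := by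
      apply forall_congr'
      intro j
      rw [Finsupp.add_apply, Finsupp.single_apply]
      split_ifs
      · rw [Nat.add_mod_left]
      · rw [zero_add]
    by_cases h3 : ∀ j, m j % 2 = e j
    · rw [if_pos h3, if_pos (h2.mpr h3)]
      rw [X, MvPolynomial.monomial_mul, one_mul]
      have h4 : hf (Finsupp.single i 2 + m) = Finsupp.single i 1 + hf m := by
        ext j
        rw [hf_apply, Finsupp.add_apply, Finsupp.add_apply, hf_apply, Finsupp.single_apply,
          Finsupp.single_apply]
        split_ifs
        · omega
        · omega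
      rw [h4]
    · rw [if_neg h3, if_neg (fun h => h3 (h2.mp h)), mul_zero]
  | add p q hp hq => rw [mul_add, map_add, hp, hq, map_add, mul_add]

lemma cc_mul (k : Type u) [Field k] (e : Fin 3 → ℕ) (a d : D k) :
    cc k e (E k a * d) = a * cc k e d := by
  induction a using MvPolynomial.induction_on generalizing d with
  | C r =>
    rw [show E k (C r) = C r from MvPolynomial.expand_C 2 r, MvPolynomial.C_mul', map_smul,
      MvPolynomial.C_mul']
  | add p q hp hq => rw [map_add, add_mul, map_add, hp, hq, add_mul]
  | mul_X p i hp =>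
    rw [map_mul (E k), show E k (X i) = X i ^ 2 from MvPolynomial.expand_X 2 i, mul_assoc, hp,
      cc_sq, mul_assoc]

lemma w_eq (k : Type u) [Field k] :
    w k = monomial (Finsupp.single 1 3 + Finsupp.single 2 1) 1 +
      monomial (Finsupp.single 0 1 + Finsupp.single 1 1 + Finsupp.single 2 3) 1 := by
  unfold w
  rw [MvPolynomial.X_pow_eq_monomial, MvPolynomial.X_pow_eq_monomial]
  simp only [X, MvPolynomial.monomial_mul, mul_one]

lemma one_eq (k : Type u) [Field k] : (1 : D k) = monomial 0 1 := by
  rw [MvPolynomial.monomial_zero', MvPolynomial.C_1]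

theorem taskCoord : TaskCoord := by
  intro k _ _
  refine ⟨{ c0 := (cc k ![0, 0, 0]).toAddMonoidHom
            c1 := (cc k ![0, 1, 1]).toAddMonoidHom
            c2 := (cc k ![1, 1, 1]).toAddMonoidHom
            mul0 := fun a d => cc_mul k _ a d
            mul1 := fun a d => cc_mul k _ a d
            mul2 := fun a d => cc_mul k _ a d
            one0 := ?_
            one1 := ?_
            one2 := ?_
            w0 := ?_
            w1 := ?_
            w2 := ?_ }⟩
  · show cc k ![0, 0, 0] 1 = 1
    rw [one_eq, cc_monomial, one_smul]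
    unfold gg
    rw [if_pos (by intro i; fin_cases i <;> simp)]
    have h1 : hf 0 = 0 := by
      ext i
      simp [hf_apply]
    rw [h1]
  · show cc k ![0, 1, 1] 1 = 0
    rw [one_eq, cc_monomial, one_smul]
    unfold gg
    rw [if_neg (by intro h; have := h 1; simp at this)]
  · show cc k ![1, 1, 1] 1 = 0
    rw [one_eq, cc_monomial, one_smul]
    unfold gg
    rw [if_neg (by intro h; have := h 1; simp at this)]
  · show cc k ![0, 0, 0] (w k) = 0
    rw [w_eq, map_add, cc_monomial, cc_monomial, one_smul, one_smul]
    unfold gg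
    rw [if_neg (by intro h; have := h 1; simp at this),
      if_neg (by intro h; have := h 1; simp at this), add_zero]
  · show cc k ![0, 1, 1] (w k) = X 1
    rw [w_eq, map_add, cc_monomial, cc_monomial, one_smul, one_smul]
    unfold gg
    rw [if_pos (by intro i; fin_cases i <;> simp),
      if_neg (by intro h; have := h 0; simp at this), add_zero]
    have h1 : hf (Finsupp.single 1 3 + Finsupp.single 2 1) = Finsupp.single 1 1 := by
      ext i
      fin_cases i <;> simp [hf_apply]
    rw [h1]
    rfl
  · show cc k ![1, 1, 1] (w k) = X 2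
    rw [w_eq, map_add, cc_monomial, cc_monomial, one_smul, one_smul]
    unfold gg
    rw [if_neg (by intro h; have := h 0; simp at this),
      if_pos (by intro i; fin_cases i <;> simp), zero_add]
    have h1 : hf (Finsupp.single 0 1 + Finsupp.single 1 1 + Finsupp.single 2 3) =
        Finsupp.single 2 1 := by
      ext i
      fin_cases i <;> simp [hf_apply]
    rw [h1]
    rfl

end H503R3.FR.Coord54
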